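import Pool.Agent.H500.R2.Stm

/-!
# The projectively finite case (part 9 of project R2 of helper500)

The existence of a `60`-th root of unity `ζ` with `ζ a² = (ζ + 1)² d` is the vanishing of the
resultant of `X ^ 60 - 1` and `X a² - (X + 1)² d`.
-/

set_option autoImplicit false

namespace Pool.Agent.H155.R2.Exc

open NumberField IsDedekindDomain Filter Topology Polynomial
open Pool.Agent.W401.Cheb (GK IsFrob IsInert dens)
open Pool.Agent.H500.HC Pool.Agent.H500.R2

section poly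

variable {R S : Type} [CommRing R] [CommRing S]

variable (R) in
/-- `X ^ 60 - 1` -/
noncomputable def G : R[X] := X ^ 60 - C 1

/-- `X a² - (X + 1)² d` -/
noncomputable def F (a d : R) : R[X] := X * C (a ^ 2) - (X + 1) ^ 2 * C d

theorem F_natDegree_le (a d : R) : (F a d).natDegree ≤ 2 := by
  unfold F
  compute_degree

theorem map_G (φ : R →+* S) : (G R).map φ = G S := by
  simp [G]

theorem map_F (φ : R →+* S) (a d : R) : (F a d).map φ = F (φ a) (φ d) := by
  simp [F]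

theorem eval_F (a d z : R) : (F a d).eval z = z * a ^ 2 - (z + 1) ^ 2 * d := by
  simp [F]

variable {L : Type} [Field L] [IsAlgClosed L]

theorem res_eq (φ : R →+* L) (a d : R) : φ (resultant (G R) (F a d) 60 2) =
    ((G L).roots.map (F (φ a) (φ d)).eval).prod := by
  have h1 : (G L).natDegree = 60 := natDegree_X_pow_sub_C
  have h3 : (G L).leadingCoeff = 1 := leadingCoeff_X_pow_sub_C (by norm_num)
  have h2 := resultant_eq_prod_eval (G L) (F (φ a) (φ d)) 2 (F_natDegree_le _ _)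
    (IsAlgClosed.splits _)
  rw [h1, h3, one_pow, one_mul] at h2
  rw [← resultant_map_map, map_G, map_F, h2]

theorem res_zero_iff (φ : R →+* L) (a d : R) : φ (resultant (G R) (F a d) 60 2) = 0 ↔
    ∃ ζ : L, ζ ^ 60 = 1 ∧ ζ * φ a ^ 2 = (ζ + 1) ^ 2 * φ d := by
  have hG : G L ≠ 0 := X_pow_sub_C_ne_zero (by norm_num) 1
  have hr : ∀ z : L, z ∈ (G L).roots ↔ z ^ 60 = 1 := by
    intro z
    rw [mem_roots hG, IsRoot.def, G, eval_sub, eval_pow, eval_X, eval_C, sub_eq_zero]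
  rw [res_eq, Multiset.prod_eq_zero_iff, Multiset.mem_map]
  constructor
  · rintro ⟨z, hz, h⟩
    rw [eval_F, sub_eq_zero] at h
    exact ⟨z, (hr z).1 hz, h⟩
  · rintro ⟨z, hz, h⟩
    exact ⟨z, (hr z).2 hz, by rw [eval_F, sub_eq_zero]; exact h⟩

end poly

section local_

variable {k : Type} [Field k]

theorem eig_pow {m : ℕ} (M : Matrix (Fin m) (Fin m) k) {N : ℕ} {c : k} (hM : M ^ N = c • 1) {x : k}
    (hx : M.charpoly.IsRoot x) : x ^ N = c := by
  obtain ⟨v, hv, hv1⟩ := Pool.Agent.H500.MW.exists_eigen M hx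
  have h1 := Pool.Agent.H500.MW.pow_mulVec M hv1 N
  rw [hM, Matrix.smul_mulVec, Matrix.one_mulVec] at h1
  obtain ⟨i, hi⟩ := Function.ne_iff.1 hv
  have h3 := congrFun h1 i
  simp only [Pi.smul_apply, smul_eq_mul] at h3
  exact (mul_right_cancel₀ hi h3).symm

theorem alg_root [IsAlgClosed k] (M : Matrix (Fin 2) (Fin 2) k) {c : k} (hM : M ^ 60 = c • 1)
    (hd : M.det ≠ 0) : ∃ ζ : k, ζ ^ 60 = 1 ∧ ζ * M.trace ^ 2 = (ζ + 1) ^ 2 * M.det := by
  have hch : ∀ x : k, M.charpoly.IsRoot x ↔ x ^ 2 - M.trace * x + M.det = 0 := by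
    intro x
    rw [IsRoot.def, Matrix.charpoly_fin_two]
    simp
  obtain ⟨s, hs⟩ := IsAlgClosed.exists_root M.charpoly (by
    rw [Matrix.charpoly_degree_eq_dim]
    norm_num)
  have e1 := (hch s).1 hs
  have e2 : s * (M.trace - s) = M.det := by linear_combination -e1
  have ht : M.charpoly.IsRoot (M.trace - s) := by
    rw [hch]
    linear_combination -e2
  have p1 := eig_pow M hM hs
  have p2 := eig_pow M hM ht
  have s0 : s ≠ 0 := by
    rintro rfl
    rw [zero_mul] at e2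
    exact hd e2.symm
  have t0 : M.trace - s ≠ 0 := by
    intro h
    rw [h, mul_zero] at e2
    exact hd e2.symm
  have c0 : c ≠ 0 := by
    rw [← p1]
    exact pow_ne_zero _ s0
  refine ⟨s / (M.trace - s), ?_, ?_⟩
  · rw [div_pow, p1, p2, div_self c0]
  · rw [← e2]
    field_simp
    ring

theorem local_root (A : Matrix (Fin 2) (Fin 2) k) {c : k} (hA : A ^ 60 = c • 1)
    (hd : A.det ≠ 0) : ∃ ζ : AlgebraicClosure k, ζ ^ 60 = 1 ∧
      ζ * algebraMap k (AlgebraicClosure k) A.trace ^ 2 =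
        (ζ + 1) ^ 2 * algebraMap k (AlgebraicClosure k) A.det := by
  set i := algebraMap k (AlgebraicClosure k) with hi
  have h1 : (i.mapMatrix A) ^ 60 = i c • (1 : Matrix (Fin 2) (Fin 2) (AlgebraicClosure k)) := by
    rw [← map_pow, hA]
    ext x y
    simp only [RingHom.mapMatrix_apply, Matrix.map_apply, Matrix.smul_apply, Matrix.one_apply,
      smul_eq_mul, mul_ite, mul_one, mul_zero]
    rw [apply_ite i, map_zero]
  have h2 : (i.mapMatrix A).det = i A.det := (RingHom.map_det i A).symm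
  have h3 : (i.mapMatrix A).trace = i A.trace := by
    simp [Matrix.trace_fin_two]
  have h4 : (i.mapMatrix A).det ≠ 0 := by
    rw [h2]
    exact (map_ne_zero i).2 hd
  have := alg_root (i.mapMatrix A) h1 h4
  rwa [h2, h3] at this

end local_

section norm

variable {E : Type} [Field E] [NumberField E]

theorem mem_of_dvd_norm {w : HeightOneSpectrum (𝓞 E)} {p : ℕ} (hp : p.Prime)
    (h : p ∣ Ideal.absNorm w.asIdeal) : (p : 𝓞 E) ∈ w.asIdeal := by
  classical
  haveI := Fact.mk hp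
  haveI : Finite (𝓞 E ⧸ w.asIdeal) := Ideal.finiteQuotientOfFreeOfNeBot w.asIdeal w.ne_bot
  haveI := w.isPrime
  have h1 : p ∣ Nat.card (𝓞 E ⧸ w.asIdeal) := by
    rw [Ideal.absNorm_apply, Submodule.cardQuot_apply] at h
    exact h
  obtain ⟨x, hx⟩ := exists_prime_addOrderOf_dvd_card' p h1
  have h2 : (p : 𝓞 E ⧸ w.asIdeal) * x = 0 := by
    rw [← nsmul_eq_mul, ← hx]
    exact addOrderOf_nsmul_eq_zero x
  have h3 : x ≠ 0 := by
    rintro rfl
    rw [addOrderOf_zero] at hx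
    exact hp.one_lt.ne hx
  have h4 : (p : 𝓞 E ⧸ w.asIdeal) = 0 := (mul_eq_zero.1 h2).resolve_right h3
  rw [← Ideal.Quotient.eq_zero_iff_mem, map_natCast]
  exact h4

theorem norm_not_mem {K : Type} [Field K] [NumberField K] {v : HeightOneSpectrum (𝓞 K)}
    {w : HeightOneSpectrum (𝓞 E)} (h : ((Ideal.absNorm v.asIdeal : ℕ) : 𝓞 E) ∉ w.asIdeal) :
    ((Ideal.absNorm w.asIdeal : ℕ) : 𝓞 K) ∉ v.asIdeal := by
  intro h1
  have hc : Nat.Coprime (Ideal.absNorm v.asIdeal) (Ideal.absNorm w.asIdeal) := by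
    refine Nat.Coprime.symm (Nat.coprime_of_dvd ?_)
    intro p hp hp1 hp2
    apply h
    obtain ⟨b, hb⟩ := hp2
    rw [hb, Nat.cast_mul]
    exact Ideal.mul_mem_right _ _ (mem_of_dvd_norm hp hp1)
  have hc' : IsCoprime ((Ideal.absNorm v.asIdeal : ℕ) : ℤ) ((Ideal.absNorm w.asIdeal : ℕ) : ℤ) :=
    Nat.isCoprime_iff_coprime.2 hc
  obtain ⟨x, y, hxy⟩ := hc'
  apply v.isPrime.ne_top
  rw [Ideal.eq_top_iff_one]
  have h2 : (1 : 𝓞 K) = (x : 𝓞 K) * ((Ideal.absNorm v.asIdeal : ℕ) : 𝓞 K) +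
      (y : 𝓞 K) * ((Ideal.absNorm w.asIdeal : ℕ) : 𝓞 K) := by
    have := congrArg (fun z : ℤ => (z : 𝓞 K)) hxy
    push_cast at this
    exact this.symm
  rw [h2]
  exact Ideal.add_mem _ (Ideal.mul_mem_left _ _ (norm_mem v)) (Ideal.mul_mem_left _ _ h1)

end norm

theorem main : Pool.Agent.H500.R2.S_Exc := by
  intro K E _ _ _ _ N a d S hN hS H v hv
  classical
  have hz : resultant (G (𝓞 E)) (F (a v) (d v)) 60 2 = 0 := by
    set S' : Set (HeightOneSpectrum (𝓞 E)) := {lam | lam ∈ S ∧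
      ((Ideal.absNorm v.asIdeal : ℕ) : 𝓞 E) ∉ lam.asIdeal} with hS'def
    have hS' : S'.Infinite := by
      intro hfin
      apply hS
      refine (hfin.union (Pool.Agent.H500.Kum.fin_mem (E := E)
        (x := ((Ideal.absNorm v.asIdeal : ℕ) : 𝓞 E)) (Nat.cast_ne_zero.2 (norm_ne_zero v)))).subset ?_
      intro lam hlam
      by_cases h : ((Ideal.absNorm v.asIdeal : ℕ) : 𝓞 E) ∈ lam.asIdeal
      · exact Or.inr h
      · exact Or.inl ⟨hlam, h⟩
    refine zero_of_inf hS' ?_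
    rintro lam ⟨hlam, hnv⟩
    obtain ⟨k, _, φ, ρ, hφ, hsc, hfr⟩ := H lam hlam
    obtain ⟨σ, hσ⟩ := Pool.Agent.W401.Frob.exists_frob v
    obtain ⟨ht, hd⟩ := hfr v hv (norm_not_mem hnv) σ hσ
    obtain ⟨c, hc⟩ := hsc σ
    have hdet : (ρ σ : Matrix (Fin 2) (Fin 2) k).det ≠ 0 := by
      have h1 : IsUnit (ρ σ : Matrix (Fin 2) (Fin 2) k).det :=
        (Matrix.isUnit_iff_isUnit_det _).1 (ρ σ).isUnit
      exact h1.ne_zero
    have h2 := local_root _ hc hdet
    rw [ht, hd] at h2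
    have h3 := (res_zero_iff ((algebraMap k (AlgebraicClosure k)).comp φ) (a v) (d v)).2 h2
    rw [← hφ, RingHom.mem_ker]
    exact (map_eq_zero (algebraMap k (AlgebraicClosure k))).1 h3
  obtain ⟨ζ, h1, h2⟩ := (res_zero_iff ((algebraMap E (AlgebraicClosure E)).comp
    (algebraMap (𝓞 E) E)) (a v) (d v)).1 (by rw [hz, map_zero])
  have h0 : ζ ≠ 0 := by
    rintro rfl
    rw [zero_pow (by norm_num)] at h1
    exact zero_ne_one h1
  refine ⟨ζ, h1, ?_⟩
  apply mul_left_cancel₀ h0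
  refine h2.trans ?_
  show (ζ + 1) ^ 2 * algebraMap E (AlgebraicClosure E) (d v) =
    ζ * ((ζ + ζ⁻¹ + 2) * algebraMap E (AlgebraicClosure E) (d v))
  field_simp
  ring

end Pool.Agent.H155.R2.Exc
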